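import Pool.Agent.helper26.T5.SpecB

/-! Row t5:LFE (MP_16912e_nt): crude bound for all ideals, interface form -/

set_option autoImplicit false

namespace Pool.Agent.helper26.T5

open NumberField Pool.Agent.helper3.FT Pool.Agent.helper47.RA Pool.Agent.T5

theorem lfe (hLP : LP) (hLGA : LGA) : LFE := by
  intro d hd
  refine ⟨8, 1, by norm_num, ?_⟩
  intro K _ _ Q N Y a _ hN hD1 hD2 haI F hF
  obtain ⟨ha0, _, _, _, _, _⟩ := haI
  have hN0 : 0 < N := by linarith
  have hDr : 0 < -(Q.D : ℝ) := by linarith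
  have hD0 : Q.D < 0 := by
    have : (Q.D : ℝ) < 0 := by linarith
    exact_mod_cast this
  have habs : |(Q.D : ℝ)| = -(Q.D : ℝ) := abs_of_neg (by linarith)
  have hs0 : 0 < √(-(Q.D : ℝ)) := Real.sqrt_pos.2 hDr
  have hNd : 1 ≤ N ^ d := Real.one_le_rpow hN hd.le
  have hT : 0 < N ^ d * √(-(Q.D : ℝ)) := by positivity
  have key := hLP K Q a (N ^ d * √(-(Q.D : ℝ))) 1 1 hD0 ha0 hT le_rfl (Nat.coprime_one_left _)
    squarefree_one (by norm_num) (by
      intro p hp hp1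
      exact absurd (Nat.dvd_one.1 hp1) hp.one_lt.ne') F (by
      intro α hα
      obtain ⟨h1, γ, ⟨θ, hθ, hγ⟩, hgd⟩ := hF α hα
      have h2 := (hLGA K Q a θ ha0 hθ.symm α h1.1).2 γ hγ hgd
      have hc : Cont1 a α := h2
      obtain ⟨γ', hγ'⟩ := (hLGA K Q a θ ha0 hθ.symm α h1.1).1
      refine ⟨h1, hc, by simp, ?_⟩
      rw [one_mul]
      have h3 : Ideal.span {α} ≤ a ^ 2 := by
        rw [Ideal.span_singleton_le_iff_mem]
        exact h1.1
      have h4 : a ^ 2 ∣ Ideal.span {α} := Ideal.dvd_iff_le.2 h3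
      have h5 := map_dvd Ideal.absNorm h4
      rw [map_pow] at h5
      exact h5)
  rw [habs] at key
  have h6 : 2 * Real.pi * (N ^ d * √(-(Q.D : ℝ))) / (((1 : ℕ) : ℝ) * ((1 : ℕ) : ℝ) * √(-(Q.D : ℝ))) =
      2 * Real.pi * N ^ d := by
    field_simp
    norm_num
  rw [h6] at key
  have hpi : Real.pi < 3.15 := Real.pi_lt_d2
  have h7 : 2 * Real.pi * N ^ d ≤ 6.3 * N ^ d := by
    apply mul_le_mul_of_nonneg_right _ (by linarith)
    linarith
  linarith

end Pool.Agent.helper26.T5
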